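import Pool.Agent.X305.HA.Defs
import Pool.Agent.TH720.LB.Prod

/-!
# Computations on the product with a curve
-/

set_option autoImplicit false

open CategoryTheory AlgebraicGeometry Finset

universe u v

namespace Pool.Agent.X305.HA

open Pool.Agent.H914 VarClass Obj WeilCohomology Pool.Agent.TH720.LB

variable {k : Type u} [Field k] {𝒱 : VarClass k} {ops : CycleOps 𝒱}
  {W : WeilCohomology.{u, v} ops} {X P : 𝒱.Obj} {D : X.Cycles} {h : P.Cycles}

/-- the class `c` is orthogonal to all algebraic classes -/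
def NZ (W : WeilCohomology.{u, v} ops) (X : 𝒱.Obj) (c : W.H X) : Prop :=
  ∀ q, ∀ b ∈ algClasses W X q, W.tr X (c * b) = 0

lemma NZ.add {c c' : W.H X} (h1 : NZ W X c) (h2 : NZ W X c') : NZ W X (c + c') := by
  intro q b hb
  rw [add_mul, map_add, h1 q b hb, h2 q b hb, add_zero]

lemma NZ.smul {c : W.H X} (r : W.K) (h1 : NZ W X c) : NZ W X (r • c) := by
  intro q b hb
  rw [smul_mul_assoc, map_smul, h1 q b hb, smul_zero]

lemma NZ.sum {ι : Type} (s : Finset ι) {c : ι → W.H X} (h1 : ∀ i ∈ s, NZ W X (c i)) :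
    NZ W X (∑ i ∈ s, c i) := by
  intro q b hb
  rw [sum_mul, map_sum]
  exact Finset.sum_eq_zero fun i hi => h1 i hi q b hb

lemma alg_mem {q : ℕ} {b : W.H X} (hb : b ∈ algClasses W X q) : b ∈ W.gr X (2 * q) := by
  obtain ⟨z, hz, rfl⟩ := hb
  exact W.cl_mem hz

lemma alg_mul {p q : ℕ} {a b : W.H X} (ha : a ∈ algClasses W X p) (hb : b ∈ algClasses W X q) :
    a * b ∈ algClasses W X (p + q) := by
  obtain ⟨z, hz, rfl⟩ := ha
  obtain ⟨w, hw, rfl⟩ := hb
  exact ⟨_, ops.mul_mem hz hw, W.cl_mul _ _⟩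

lemma alg_add {p : ℕ} {a b : W.H X} (ha : a ∈ algClasses W X p) (hb : b ∈ algClasses W X p) :
    a + b ∈ algClasses W X p := by
  obtain ⟨z, hz, rfl⟩ := ha
  obtain ⟨w, hw, rfl⟩ := hb
  exact ⟨_, hz.add hw, map_add _ _ _⟩

lemma alg_smul {p : ℕ} {a : W.H X} (r : ℚ) (ha : a ∈ algClasses W X p) :
    (r : W.K) • a ∈ algClasses W X p := by
  obtain ⟨z, hz, rfl⟩ := ha
  exact ⟨_, hz.smul r, W.cl_smul _ _⟩

lemma alg_zero {p : ℕ} : (0 : W.H X) ∈ algClasses W X p :=
  ⟨0, SmVar.IsCyc.zero _ _, map_zero _⟩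

lemma alg_sum {p : ℕ} {ι : Type} (s : Finset ι) {c : ι → W.H X}
    (h1 : ∀ i ∈ s, c i ∈ algClasses W X p) : ∑ i ∈ s, c i ∈ algClasses W X p := by
  classical
  induction s using Finset.induction_on with
  | empty => simpa using alg_zero
  | insert i s hi ih =>
    rw [sum_insert hi]
    exact alg_add (h1 i (mem_insert_self i s)) (ih fun j hj => h1 j (mem_insert_of_mem hj))

lemma alg_one : (1 : W.H X) ∈ algClasses W X 0 :=
  ⟨_, X.V.fundCycle_mem, W.cl_fund X⟩

lemma alg_pow {a : W.H X} (ha : a ∈ algClasses W X 1) (m : ℕ) :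
    a ^ m ∈ algClasses W X m := by
  induction m with
  | zero => simpa using alg_one
  | succ m ih => rw [pow_succ]; exact alg_mul ih ha

lemma alg_pull {Y : 𝒱.Obj} (f : X ⟶ Y) {p : ℕ} {a : W.H Y} (ha : a ∈ algClasses W Y p) :
    W.map f a ∈ algClasses W X p := by
  obtain ⟨z, hz, rfl⟩ := ha
  exact ⟨_, ops.pull_mem f hz, W.cl_pull _ _⟩

lemma alg_push {Y : 𝒱.Obj} (f : X ⟶ Y) {p q : ℕ} {a : W.H X} (ha : a ∈ algClasses W X p)
    (hpq : p + Y.dim = q + X.dim) : W.push f a ∈ algClasses W Y q := by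
  obtain ⟨z, hz, rfl⟩ := ha
  exact ⟨_, ops.push_mem f hz hpq, W.cl_push _ _⟩

section

variable (hD : X.IsCyc 1 D) (hh : P.IsCyc 1 h) (hP : P.dim = 1)

include hP in
lemma tr_one_P : W.tr P 1 = 0 := W.tr_eq_zero (W.one_mem P) (by omega)

include hP in
lemma tr_p (u : W.H X) : W.tr (X.prod P) (W.map (fst X P) u) = 0 := by
  have h1 := W.tr_prod u (1 : W.H P)
  rw [map_one, mul_one, tr_one_P hP, mul_zero] at h1
  exact h1

include hh hP in
lemma tr_eta : W.tr P (W.cl P h) = (P.V.degCycle h : W.K) := W.tr_cl (by rw [hP]; exact hh)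

include hh in
/-- the class of `X × h` commutes with everything -/
lemma t_comm (y : W.H (X.prod P)) :
    W.map (snd X P) (W.cl P h) * y = y * W.map (snd X P) (W.cl P h) :=
  comm_even (p := 1) (W.map_mem _ (W.cl_mem hh)) y

include hD in
lemma x_comm (y : W.H (X.prod P)) :
    W.map (fst X P) (W.cl X D) * y = y * W.map (fst X P) (W.cl X D) :=
  comm_even (p := 1) (W.map_mem _ (W.cl_mem hD)) y

include hh hP in
lemma tr_tp (u : W.H X) : W.tr (X.prod P) (W.map (snd X P) (W.cl P h) * W.map (fst X P) u) =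
    (P.V.degCycle h : W.K) * W.tr X u := by
  rw [t_comm hh, W.tr_prod, tr_eta hh hP, mul_comm]

include hh hP in
lemma t_sq : W.map (snd X P) (W.cl P h) * W.map (snd X P) (W.cl P h) = 0 := by
  have h1 : W.cl P h * W.cl P h ∈ W.gr P (2 * 1 + 2 * 1) := W.mul_mem (W.cl_mem hh) (W.cl_mem hh)
  rw [W.gr_eq_bot P _ (by omega)] at h1
  rw [← map_mul, (Submodule.mem_bot _).1 h1, map_zero]

include hh hP in
lemma tt_zero (a b : W.H (X.prod P)) : W.map (snd X P) (W.cl P h) * a *
    (W.map (snd X P) (W.cl P h) * b) = 0 := by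
  rw [t_comm hh a, mul_assoc, ← mul_assoc (W.map (snd X P) (W.cl P h)), t_sq hh hP, zero_mul,
    mul_zero]

lemma cl_sumDiv : W.cl _ (sumDiv ops D h) =
    W.map (fst X P) (W.cl X D) + W.map (snd X P) (W.cl P h) := by
  rw [sumDiv, map_add, W.cl_pull, W.cl_pull]

include hh hP in
/-- `E ^ (m + 1) = ξ ^ (m + 1) + (m + 1) ξ ^ m t` -/
lemma E_pow (m : ℕ) : W.cl _ (sumDiv ops D h) ^ (m + 1) =
    W.map (fst X P) (W.cl X D ^ (m + 1)) +
      ((m + 1 : ℕ) : W.K) • (W.map (snd X P) (W.cl P h) * W.map (fst X P) (W.cl X D ^ m)) := by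
  induction m with
  | zero =>
    rw [zero_add, pow_one, pow_one, pow_zero, map_one, mul_one, Nat.cast_one, one_smul, cl_sumDiv]
  | succ m ih =>
    rw [pow_succ, ih, cl_sumDiv]
    generalize ht : W.map (snd X P) (W.cl P h) = t
    have hc : ∀ y, t * y = y * t := by
      intro y
      rw [← ht]
      exact t_comm hh y
    have h2 : t * t = 0 := by
      rw [← ht]
      exact t_sq hh hP
    have e1 : W.map (fst X P) (W.cl X D ^ (m + 1)) * W.map (fst X P) (W.cl X D) =
        W.map (fst X P) (W.cl X D ^ (m + 1 + 1)) := by rw [← map_mul, ← pow_succ]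
    have e2 : t * W.map (fst X P) (W.cl X D ^ m) * W.map (fst X P) (W.cl X D) =
        t * W.map (fst X P) (W.cl X D ^ (m + 1)) := by rw [mul_assoc, ← map_mul, ← pow_succ]
    have e3 : t * W.map (fst X P) (W.cl X D ^ m) * t = 0 := by
      rw [hc, mul_assoc, h2, mul_zero]
    rw [add_mul, mul_add, mul_add, smul_mul_assoc, smul_mul_assoc, e1, e2, e3, ← hc, smul_zero,
      add_zero]
    push_cast
    module

include hh hP in
lemma tr_E_p (m : ℕ) (u : W.H X) : W.tr _ (W.cl _ (sumDiv ops D h) ^ (m + 1) *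
    W.map (fst X P) u) = ((m + 1 : ℕ) : W.K) * ((P.V.degCycle h : W.K) *
      W.tr X (W.cl X D ^ m * u)) := by
  rw [E_pow hh hP, add_mul, ← map_mul, map_add, tr_p hP, zero_add, smul_mul_assoc, map_smul,
    mul_assoc, ← map_mul, tr_tp hh hP, smul_eq_mul]

include hh hP in
lemma tr_E_tp (m : ℕ) (u : W.H X) : W.tr _ (W.cl _ (sumDiv ops D h) ^ m *
    (W.map (snd X P) (W.cl P h) * W.map (fst X P) u)) = (P.V.degCycle h : W.K) *
      W.tr X (W.cl X D ^ m * u) := by
  rcases m with _ | m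
  · rw [pow_zero, pow_zero, one_mul, one_mul, tr_tp hh hP]
  · rw [E_pow hh hP, add_mul, smul_mul_assoc, tt_zero hh hP, smul_zero, add_zero, ← mul_assoc,
      ← t_comm hh, mul_assoc, ← map_mul, tr_tp hh hP]

/-- moving a class up -/
noncomputable def up (W : WeilCohomology.{u, v} ops) (X P : 𝒱.Obj) (a : W.H X) :
    W.H (X.prod P) :=
  W.map (fst X P) a

/-- moving a class down from the gap `g` -/
noncomputable def down (W : WeilCohomology.{u, v} ops) {X P : 𝒱.Obj} (D : X.Cycles) (h : P.Cycles)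
    (g : ℕ) (a : W.H X) : W.H (X.prod P) :=
  W.map (fst X P) (W.cl X D * a) - (g : W.K) • (W.map (snd X P) (W.cl P h) * W.map (fst X P) a)

include hD hh hP in
/-- pairing of two classes moved up -/
lemma pair_up_up (g : ℕ) (a b : W.H X) :
    W.tr _ (W.cl _ (sumDiv ops D h) ^ (g + 1) * (up W X P a * up W X P b)) =
      ((g + 1 : ℕ) : W.K) * ((P.V.degCycle h : W.K) * W.tr X (W.cl X D ^ g * (a * b))) := by
  rw [up, up, ← map_mul, tr_E_p hh hP]

include hD hh hP in
/-- pairing of a class moved up with a class moved down -/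
lemma pair_up_down (g : ℕ) (a b : W.H X) :
    W.tr _ (W.cl _ (sumDiv ops D h) ^ (g + 1) * (up W X P a * down W D h (g + 2) b)) =
      -((P.V.degCycle h : W.K) * W.tr X (W.cl X D ^ (g + 1) * (a * b))) := by
  have e1 : up W X P a * down W D h (g + 2) b = W.map (fst X P) (W.cl X D * (a * b)) -
      ((g + 2 : ℕ) : W.K) • (W.map (snd X P) (W.cl P h) * W.map (fst X P) (a * b)) := by
    rw [up, down, mul_sub, mul_smul_comm, ← mul_assoc (W.map (fst X P) a), ← t_comm hh, mul_assoc,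
      ← map_mul, ← map_mul, ← mul_assoc, ← comm_even (p := 1) (W.cl_mem hD) a, mul_assoc]
  rw [e1, mul_sub, map_sub, mul_smul_comm, map_smul, tr_E_p hh hP, tr_E_tp hh hP,
    ← mul_assoc (W.cl X D ^ g), ← pow_succ, smul_eq_mul]
  push_cast
  ring

omit hD hh hP in
lemma dd {K R : Type*} [Field K] [Ring R] [Algebra K R] (x t A B : R) (hx : ∀ y, x * y = y * x)
    (ht : ∀ y, t * y = y * t) (h0 : t * t = 0) (g : K) :
    (x * A - g • (t * A)) * (x * B - g • (t * B)) =
      x * (x * (A * B)) - (2 * g) • (t * (x * (A * B))) := by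
  have h1 : x * A * (x * B) = x * (x * (A * B)) := by
    rw [mul_assoc, ← mul_assoc A, ← hx A, mul_assoc x A B]
  have h2 : x * A * (t * B) = t * (x * (A * B)) := by
    rw [← mul_assoc, ← ht (x * A), mul_assoc, mul_assoc x]
  have h3 : t * A * (x * B) = t * (x * (A * B)) := by
    rw [mul_assoc, ← mul_assoc A, ← hx A, mul_assoc x A B]
  have h4 : t * A * (t * B) = 0 := by
    rw [mul_assoc, ← mul_assoc A, ← ht A, ← mul_assoc, ← mul_assoc, h0, zero_mul, zero_mul]
  rw [sub_mul, mul_sub, mul_sub, mul_smul_comm, smul_mul_assoc, smul_mul_assoc, mul_smul_comm, h1,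
    h2, h3, h4, smul_zero, smul_zero, sub_zero, two_mul, add_smul]
  abel

include hD hh hP in
/-- pairing of two classes moved down -/
lemma pair_down_down (g : ℕ) (a b : W.H X) :
    W.tr _ (W.cl _ (sumDiv ops D h) ^ g * (down W D h (g + 1) a * down W D h (g + 1) b)) =
      -(((g + 2 : ℕ) : W.K) * ((P.V.degCycle h : W.K) * W.tr X (W.cl X D ^ (g + 1) * (a * b)))) := by
  rw [down, down, map_mul (W.map (fst X P)), map_mul (W.map (fst X P)),
    dd _ _ _ _ (x_comm hD) (t_comm hh) (t_sq hh hP), ← map_mul (W.map (fst X P)),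
    ← map_mul (W.map (fst X P)), ← map_mul (W.map (fst X P)), mul_sub, map_sub, mul_smul_comm,
    map_smul, tr_E_tp hh hP, smul_eq_mul, ← mul_assoc (W.cl X D ^ g), ← pow_succ]
  rcases g with _ | g
  · rw [pow_zero, one_mul, tr_p hP]
    push_cast
    ring
  · rw [tr_E_p hh hP, ← mul_assoc (W.cl X D ^ g), ← pow_succ, ← mul_assoc (W.cl X D ^ (g + 1)),
      ← pow_succ]
    push_cast
    ring

/-! ### orthogonality to algebraic classes -/

include hP in
lemma nz_up {c : W.H X} (hc : NZ W X c) {i : ℕ} {e : W.H (X.prod P)}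
    (he : e ∈ algClasses W (X.prod P) i) : NZ W (X.prod P) (W.map (fst X P) c * e) := by
  intro q b hb
  have hb2 := alg_mul he hb
  have h1 : W.tr (X.prod P) (W.map (fst X P) c * e * b) =
      W.tr X (c * W.push (fst X P) (e * b)) := by
    rw [mul_assoc, ← comm_even (p := i + q) (alg_mem hb2), ← W.tr_push,
      comm_even (p := i + q - 1) ?_ c]
    rcases Nat.eq_zero_or_pos (i + q) with h0 | h0
    · have h2 : W.push (fst X P) (e * b) = 0 := by
        have h3 := alg_mem hb2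
        rw [h0, mul_zero, W.gr_zero, Submodule.mem_span_singleton] at h3
        obtain ⟨r, hr⟩ := h3
        apply W.tr_ext
        intro c
        rw [W.tr_push, ← hr, smul_mul_assoc, one_mul, map_smul, tr_p hP, smul_zero, zero_mul,
          map_zero]
      rw [h2]
      exact Submodule.zero_mem _
    · exact alg_mem (alg_push (fst X P) hb2 (by rw [dim_prod, hP]; omega))
  rw [h1]
  rcases Nat.eq_zero_or_pos (i + q) with h0 | h0
  · have h2 : W.push (fst X P) (e * b) = 0 := by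
      have h3 := alg_mem hb2
      rw [h0, mul_zero, W.gr_zero, Submodule.mem_span_singleton] at h3
      obtain ⟨r, hr⟩ := h3
      apply W.tr_ext
      intro c
      rw [W.tr_push, ← hr, smul_mul_assoc, one_mul, map_smul, tr_p hP, smul_zero, zero_mul,
        map_zero]
    rw [h2, mul_zero, map_zero]
  · exact hc _ _ (alg_push (fst X P) hb2 (q := i + q - 1) (by rw [dim_prod, hP]; omega))

include hD hh hP in
/-- classes moved up are primitive -/
lemma prim_up {g : ℕ} {a : W.H X} (ha : NZ W X (W.cl X D ^ (g + 1) * a)) :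
    NZ W (X.prod P) (W.cl _ (sumDiv ops D h) ^ (g + 1 + 1) * up W X P a) := by
  have h1 : W.cl _ (sumDiv ops D h) ^ (g + 1 + 1) * up W X P a =
      W.map (fst X P) (W.cl X D ^ (g + 1) * a) * W.map (fst X P) (W.cl X D) +
      ((g + 1 + 1 : ℕ) : W.K) • (W.map (fst X P) (W.cl X D ^ (g + 1) * a) *
        W.map (snd X P) (W.cl P h)) := by
    rw [E_pow hh hP, up, add_mul, smul_mul_assoc, mul_assoc, ← map_mul, ← map_mul, t_comm hh,
      ← map_mul, pow_succ (W.cl X D) (g + 1), mul_assoc, mul_assoc,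
      comm_even (p := 1) (W.cl_mem hD) a]
  rw [h1]
  exact (nz_up hP ha (alg_pull (fst X P) ⟨D, hD, rfl⟩)).add
    ((nz_up hP ha (alg_pull (snd X P) ⟨h, hh, rfl⟩)).smul _)

include hD hh hP in
/-- classes moved down are primitive -/
lemma prim_down {g : ℕ} {a : W.H X} (ha : NZ W X (W.cl X D ^ (g + 2) * a)) :
    NZ W (X.prod P) (W.cl _ (sumDiv ops D h) ^ (g + 1) * down W D h (g + 1) a) := by
  have h1 : W.cl _ (sumDiv ops D h) ^ (g + 1) * down W D h (g + 1) a =
      W.map (fst X P) (W.cl X D ^ (g + 2) * a) * 1 := by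
    rw [E_pow hh hP, down, add_mul, mul_sub, mul_sub, ← map_mul, smul_mul_assoc, smul_mul_assoc,
      mul_smul_comm, mul_smul_comm, tt_zero hh hP, smul_zero, smul_zero, sub_zero, mul_one,
      ← mul_assoc (W.map (fst X P) (W.cl X D ^ (g + 1))), ← t_comm hh, mul_assoc, mul_assoc,
      ← map_mul, ← map_mul, ← mul_assoc (W.cl X D ^ (g + 1)), ← pow_succ,
      ← mul_assoc (W.cl X D ^ g), ← pow_succ, sub_add_cancel]
  rw [h1]
  exact nz_up hP ha alg_one

include hh hP in
/-- classes moved up do not become zero -/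
lemma not_nz_up (hd : (P.V.degCycle h : W.K) ≠ 0) {a : W.H X} (ha : ¬ NZ W X a) :
    ¬ NZ W (X.prod P) (up W X P a) := by
  intro h0
  apply ha
  intro q b hb
  have h1 := h0 _ _ (alg_mul (alg_pull (snd X P) ⟨h, hh, rfl⟩) (alg_pull (fst X P) hb))
  rw [up, ← mul_assoc, ← t_comm hh, mul_assoc, ← map_mul, tr_tp hh hP] at h1
  exact (mul_eq_zero.1 h1).resolve_left hd

include hD hh hP in
/-- classes moved down do not become zero -/
lemma not_nz_down (hd : (P.V.degCycle h : W.K) ≠ 0) {g : ℕ} {a : W.H X} (ha : ¬ NZ W X a) :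
    ¬ NZ W (X.prod P) (down W D h (g + 1) a) := by
  intro h0
  apply ha
  intro q b hb
  have h1 := h0 _ _ (alg_pull (fst X P) hb)
  rw [down, sub_mul, ← map_mul, map_sub, tr_p hP, zero_sub, smul_mul_assoc, map_smul, mul_assoc,
    ← map_mul, tr_tp hh hP, neg_eq_zero, smul_eq_mul] at h1
  have h2 : ((g + 1 : ℕ) : W.K) ≠ 0 := Nat.cast_ne_zero.2 (by omega)
  exact (mul_eq_zero.1 ((mul_eq_zero.1 h1).resolve_left h2)).resolve_left hd

lemma alg_up {n : ℕ} {a : W.H X} (ha : a ∈ algClasses W X n) :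
    up W X P a ∈ algClasses W (X.prod P) n := alg_pull (fst X P) ha

include hD hh in
lemma alg_down {n : ℕ} (g : ℕ) {a : W.H X} (ha : a ∈ algClasses W X n) :
    down W D h g a ∈ algClasses W (X.prod P) (n + 1) := by
  have h1 : down W D h g a = W.map (fst X P) (W.cl X D * a) + ((-(g : ℚ) : ℚ) : W.K) •
      (W.map (snd X P) (W.cl P h) * W.map (fst X P) a) := by
    rw [down]
    push_cast
    rw [neg_smul, sub_eq_add_neg]
  rw [h1]
  refine alg_add ?_ (alg_smul _ ?_)
  · rw [add_comm n 1]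
    exact alg_pull _ (alg_mul ⟨D, hD, rfl⟩ ha)
  · rw [add_comm n 1]
    exact alg_mul (alg_pull _ ⟨h, hh, rfl⟩) (alg_pull _ ha)

end

end Pool.Agent.X305.HA
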