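import Pool.Agent.TH720.LB.Stm
import Pool.Agent.H914R2.HodgeDefs

/-!
# The standard conjecture of Hodge type: anisotropy and one distance from the middle. Definitions
-/

set_option autoImplicit false

open CategoryTheory AlgebraicGeometry Finset

universe u v

namespace Pool.Agent.X305.HA

open Pool.Agent.H914 VarClass Obj WeilCohomology Pool.Agent.TH720.LB

variable {k : Type u} [Field k] {𝒱 : VarClass k}

/-- The cycle `z` of codimension `p` on `X` is numerically equivalent to zero. -/
def NumZero (ops : CycleOps 𝒱) (X : 𝒱.Obj) (p : ℕ) (z : X.Cycles) : Prop :=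
  ∀ q w, p + q = X.dim → X.IsCyc q w → X.V.degCycle (ops.mul z w) = 0

/-- `z` is a cycle of codimension `n` on `X` which is primitive for `D` modulo numerical
equivalence: `D ^ (g + 1) · z` is numerically equivalent to zero, where `dim X = 2 n + g`. -/
def NumPrimitive (ops : CycleOps 𝒱) (X : 𝒱.Obj) (D : X.Cycles) (n g : ℕ) (z : X.Cycles) : Prop :=
  X.IsCyc n z ∧ NumZero ops X (n + (g + 1)) (divPow ops D (g + 1) z)

/-- The number `(-1) ^ n deg (z · z · D ^ g)` of the conjecture, for `z` of codimension `n` on `X`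
and `dim X = 2 n + g`. -/
noncomputable def hodgeNorm (ops : CycleOps 𝒱) (X : 𝒱.Obj) (D : X.Cycles) (n g : ℕ)
    (z : X.Cycles) : ℚ :=
  (-1) ^ n * X.V.degCycle (ops.mul z (divPow ops D g z))

/-- Positivity in codimension `n` on `X`, `dim X = 2 n + g`: the number of the conjecture is
positive for all primitive `z` which are not numerically equivalent to zero. -/
def PositiveAt (ops : CycleOps 𝒱) (X : 𝒱.Obj) (D : X.Cycles) (n g : ℕ) : Prop :=
  ∀ z, NumPrimitive ops X D n g z → ¬ NumZero ops X n z → 0 < hodgeNorm ops X D n g z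

/-- Anisotropy in codimension `n` on `X`, `dim X = 2 n + g`: the number of the conjecture is
not zero for primitive `z` which are not numerically equivalent to zero. -/
def AnisotropicAt (ops : CycleOps 𝒱) (X : 𝒱.Obj) (D : X.Cycles) (n g : ℕ) : Prop :=
  ∀ z, NumPrimitive ops X D n g z → ¬ NumZero ops X n z → hodgeNorm ops X D n g z ≠ 0

/-- The standard conjecture of Hodge type for `X` and `D`, modulo numerical equivalence: positivity
in all codimensions `n` with `2 n ≤ dim X`. -/
def HodgeNum (ops : CycleOps 𝒱) (X : 𝒱.Obj) (D : X.Cycles) : Prop :=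
  ∀ n g, 2 * n + g = X.dim → PositiveAt ops X D n g

/-- A class `Pol` of pairs `(X, D)` of a variety and a divisor of positive degree, which with
`(X, D)` contains `(X × P, D × P + X × h)`; here `P` is a curve and `h` a divisor of positive degree
on it. -/
structure IsPolarClass (ops : CycleOps 𝒱) (P : 𝒱.Obj) (h : P.Cycles)
    (Pol : ∀ X : 𝒱.Obj, X.Cycles → Prop) : Prop where
  dimP : P.dim = 1
  divP : P.IsCyc 1 h
  degP : 0 < P.V.degCycle h
  div : ∀ (X : 𝒱.Obj) (D : X.Cycles), Pol X D → X.IsCyc 1 D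
  deg : ∀ (X : 𝒱.Obj) (D : X.Cycles), Pol X D →
    0 < X.V.degCycle (divPow ops D X.dim X.V.fundCycle)
  prod : ∀ (X : 𝒱.Obj) (D : X.Cycles), Pol X D → Pol (X.prod P) (sumDiv ops D h)

/-- All `(X, D)` in the class have the property `Q` in the codimension `n` with
`dim X = 2 n + g`, if `dim X` lies in `S`. -/
def AtDistance (Pol : ∀ X : 𝒱.Obj, X.Cycles → Prop) (S : Set ℕ) (g : ℕ)
    (Q : ∀ X : 𝒱.Obj, X.Cycles → ℕ → ℕ → Prop) : Prop :=
  ∀ (X : 𝒱.Obj) (D : X.Cycles) (n : ℕ), Pol X D → X.dim ∈ S → 2 * n + g = X.dim → Q X D n g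

end Pool.Agent.X305.HA
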