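import Pool.Agent.X305.HA.Calc

/-!
# Orthogonal families of primitive classes
-/

set_option autoImplicit false

open CategoryTheory AlgebraicGeometry Finset

universe u v

namespace Pool.Agent.X305.HA

open Pool.Agent.H914 VarClass Obj WeilCohomology Pool.Agent.TH720.LB

variable {k : Type u} [Field k] {𝒱 : VarClass k} {ops : CycleOps 𝒱}
  {W : WeilCohomology.{u, v} ops} {X P : 𝒱.Obj} {D : X.Cycles} {h : P.Cycles}

/-- orthogonal primitive classes `z i` of codimension `n` and gap `g` with norms `N i` -/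
structure Fam (W : WeilCohomology.{u, v} ops) (X : 𝒱.Obj) (D : X.Cycles) (n g : ℕ) {ι : Type}
    (z : ι → W.H X) (N : ι → ℚ) : Prop where
  dim : 2 * n + g = X.dim
  alg : ∀ i, z i ∈ algClasses W X n
  prim : ∀ i, NZ W X (W.cl X D ^ (g + 1) * z i)
  orth : ∀ i j, i ≠ j → W.tr X (W.cl X D ^ g * (z i * z j)) = 0
  norm : ∀ i, W.tr X (W.cl X D ^ g * (z i * z i)) = (((-1) ^ n * N i : ℚ) : W.K)

lemma Fam.cast {n g : ℕ} {ι : Type} {z : ι → W.H X} {N N' : ι → ℚ} (H : Fam W X D n g z N)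
    (h0 : ∀ i, N i = N' i) : Fam W X D n g z N' := by
  obtain rfl : N = N' := funext h0
  exact H

section

variable (hD : X.IsCyc 1 D) (hh : P.IsCyc 1 h) (hP : P.dim = 1) {ι κ : Type}
include hD hh hP

lemma Fam.up {n g : ℕ} {z : ι → W.H X} {N : ι → ℚ} (H : Fam W X D n g z N) :
    Fam W (X.prod P) (sumDiv ops D h) n (g + 1) (fun i => up W X P (z i))
      (fun i => ((g + 1 : ℕ) : ℚ) * P.V.degCycle h * N i) where
  dim := by rw [dim_prod, hP, ← H.dim]; ring
  alg i := alg_up (H.alg i)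
  prim i := prim_up hD hh hP (H.prim i)
  orth i j hij := by rw [pair_up_up hD hh hP, H.orth i j hij, mul_zero, mul_zero]
  norm i := by
    rw [pair_up_up hD hh hP, H.norm i]
    push_cast
    ring

lemma Fam.down {n g : ℕ} {z : ι → W.H X} {N : ι → ℚ} (H : Fam W X D n (g + 1) z N) :
    Fam W (X.prod P) (sumDiv ops D h) (n + 1) g (fun i => down W D h (g + 1) (z i))
      (fun i => ((g + 2 : ℕ) : ℚ) * P.V.degCycle h * N i) where
  dim := by rw [dim_prod, hP, ← H.dim]; ring
  alg i := alg_down hD hh (g + 1) (H.alg i)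
  prim i := prim_down hD hh hP (H.prim i)
  orth i j hij := by rw [pair_down_down hD hh hP, H.orth i j hij, mul_zero, mul_zero, neg_zero]
  norm i := by
    rw [pair_down_down hD hh hP, H.norm i]
    push_cast
    ring

/-- a family moved up together with a family moved down -/
lemma Fam.mix {n g : ℕ} {z : ι → W.H X} {N : ι → ℚ} {z' : κ → W.H X} {N' : κ → ℚ}
    (H : Fam W X D (n + 1) g z N) (H' : Fam W X D n (g + 2) z' N') :
    Fam W (X.prod P) (sumDiv ops D h) (n + 1) (g + 1)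
      (Sum.elim (fun i => HA.up W X P (z i)) (fun i => HA.down W D h (g + 2) (z' i)))
      (Sum.elim (fun i => ((g + 1 : ℕ) : ℚ) * P.V.degCycle h * N i)
        (fun i => ((g + 3 : ℕ) : ℚ) * P.V.degCycle h * N' i)) := by
  have h1 := H.up hD hh hP
  have h2 := H'.down hD hh hP (g := g + 1)
  have hc : ∀ i j, W.tr _ (W.cl _ (sumDiv ops D h) ^ (g + 1) *
      (HA.up W X P (z i) * HA.down W D h (g + 2) (z' j))) = 0 := by
    intro i j
    rw [pair_up_down hD hh hP, ← mul_assoc, H.prim i n (z' j) (H'.alg j), mul_zero, neg_zero]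
  refine ⟨h1.dim, ?_, ?_, ?_, ?_⟩
  · rintro (i | i)
    · exact h1.alg i
    · exact h2.alg i
  · rintro (i | i)
    · exact h1.prim i
    · exact h2.prim i
  · rintro (i | i) (j | j) hij
    · exact h1.orth i j fun h0 => hij (by rw [h0])
    · exact hc i j
    · rw [Sum.elim_inr, Sum.elim_inl, ← comm_even (p := n + 1) (alg_mem (h1.alg j))]
      exact hc j i
    · exact h2.orth i j fun h0 => hij (by rw [h0])
  · rintro (i | i)
    · exact h1.norm i
    · exact h2.norm i

end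

/-- two steps: two copies of a family, with the norms multiplied by `g (g + 1) δ ^ 2` and by
`(g + 1) (g + 2) δ ^ 2` -/
lemma Fam.two {Pol : ∀ X : 𝒱.Obj, X.Cycles → Prop} (hS : IsPolarClass ops P h Pol) {n g : ℕ}
    {ι : Type} (hX : Pol X D) {z : ι → W.H X} {N : ι → ℚ} (H : Fam W X D n (g + 1) z N) :
    ∃ (Y : 𝒱.Obj) (E : Y.Cycles) (z' : ι ⊕ ι → W.H Y), Pol Y E ∧ Fam W Y E (n + 1) (g + 1) z'
      (Sum.elim (fun i => ((g + 1 : ℕ) : ℚ) * ((g + 2 : ℕ) : ℚ) * P.V.degCycle h ^ 2 * N i)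
        (fun i => ((g + 2 : ℕ) : ℚ) * ((g + 3 : ℕ) : ℚ) * P.V.degCycle h ^ 2 * N i)) := by
  have hD := hS.div X D hX
  have h1 := H.up hD hS.divP hS.dimP
  have h2 := H.down hD hS.divP hS.dimP
  have hX' := hS.prod X D hX
  have h3 := h2.mix (hS.div _ _ hX') hS.divP hS.dimP h1
  refine ⟨_, _, _, hS.prod _ _ hX', h3.cast ?_⟩
  rintro (i | i)
  · simp only [Sum.elim_inl]
    ring
  · simp only [Sum.elim_inr]
    push_cast
    ring

end Pool.Agent.X305.HA
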