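import Pool.Agent.X305.HA.Main

/-!
# Isotropic classes from classes of both signs
-/

set_option autoImplicit false

open CategoryTheory AlgebraicGeometry Finset

universe u v

namespace Pool.Agent.X305.HA

open Pool.Agent.H914 VarClass Obj WeilCohomology Pool.Agent.TH720.LB

variable {k : Type u} [Field k] {𝒱 : VarClass k} {ops : CycleOps 𝒱}
  {W : WeilCohomology.{u, v} ops} {X P : 𝒱.Obj} {D : X.Cycles} {h : P.Cycles}

/-- nonnegative rational numbers are sums of four squares -/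
lemma four_squares {q : ℚ} (hq : 0 ≤ q) :
    ∃ a b c d : ℚ, a ^ 2 + b ^ 2 + c ^ 2 + d ^ 2 = q := by
  obtain ⟨a, b, c, d, habcd⟩ := Nat.sum_four_squares (q.num.toNat * q.den)
  have hden : (q.den : ℚ) ≠ 0 := by exact_mod_cast q.den_nz
  refine ⟨a / q.den, b / q.den, c / q.den, d / q.den, ?_⟩
  have h1 : ((a : ℚ) ^ 2 + b ^ 2 + c ^ 2 + d ^ 2) = (q.num.toNat : ℚ) * q.den := by
    exact_mod_cast habcd
  have h2 : ((q.num.toNat : ℚ)) = q.num := by
    have : ((q.num.toNat : ℤ)) = q.num := Int.toNat_of_nonneg (Rat.num_nonneg.2 hq)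
    exact_mod_cast this
  have h3 : (q.num : ℚ) = q * q.den := (Rat.mul_den_eq_num q).symm
  rw [div_pow, div_pow, div_pow, div_pow, ← add_div, ← add_div, ← add_div, h1, h2, h3]
  field_simp

/-- a combination of the members of a family with norm zero -/
lemma Fam.isotropic {n g : ℕ} {ι : Type} [Fintype ι] {z : ι → W.H X} {N : ι → ℚ}
    (hD : X.IsCyc 1 D) (H : Fam W X D n g z N) (c : ι → ℚ) (h0 : ∑ i, c i ^ 2 * N i = 0)
    (h1 : ∃ j, c j * N j ≠ 0) : HasClass W X D n g 0 := by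
  classical
  have hpair : ∀ j, W.tr X (W.cl X D ^ g * ((∑ i, (c i : W.K) • z i) * z j)) =
      (c j : W.K) * (((-1) ^ n * N j : ℚ) : W.K) := by
    intro j
    rw [sum_mul, mul_sum, map_sum, Finset.sum_eq_single j]
    · rw [smul_mul_assoc, mul_smul_comm, map_smul, H.norm j, smul_eq_mul]
    · intro i _ hij
      rw [smul_mul_assoc, mul_smul_comm, map_smul, H.orth i j hij, smul_zero]
    · intro h
      exact absurd (mem_univ j) h
  refine ⟨fun _ => ∑ i, (c i : W.K) • z i, ⟨H.dim, fun _ => ?_, fun _ => ?_, ?_, fun _ => ?_⟩, ?_⟩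
  · exact alg_sum _ fun i _ => alg_smul _ (H.alg i)
  · rw [mul_sum]
    refine NZ.sum _ fun i _ => ?_
    rw [mul_smul_comm]
    exact (H.prim i).smul _
  · intro i j hij
    exact absurd (Subsingleton.elim i j) hij
  · rw [mul_sum, mul_sum, map_sum, mul_zero, Rat.cast_zero]
    have h2 : ∀ j, W.tr X (W.cl X D ^ g * ((∑ i, (c i : W.K) • z i) * ((c j : W.K) • z j))) =
        (((-1) ^ n * (c j ^ 2 * N j) : ℚ) : W.K) := by
      intro j
      rw [mul_smul_comm, mul_smul_comm, map_smul, hpair j, smul_eq_mul]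
      push_cast
      ring
    rw [Finset.sum_congr rfl fun j _ => h2 j, ← Rat.cast_sum, ← mul_sum, h0, mul_zero,
      Rat.cast_zero]
  · intro h2
    obtain ⟨j, hj⟩ := h1
    have h3 := h2 _ _ (alg_mul (alg_pow (W := W) (⟨D, hD, rfl⟩ : W.cl X D ∈ algClasses W X 1) g)
      (H.alg j))
    have h4 : (∑ i, (c i : W.K) • z i) * (W.cl X D ^ g * z j) =
        W.cl X D ^ g * ((∑ i, (c i : W.K) • z i) * z j) := by
      rw [← mul_assoc, ← mul_assoc, comm_even (p := g) (pow_mem' (cl_div hD) g)]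
    rw [h4, hpair j, ← Rat.cast_mul, Rat.cast_eq_zero] at h3
    apply hj
    have h5 : (-1 : ℚ) ^ n ≠ 0 := pow_ne_zero n (by norm_num)
    have h6 : (-1 : ℚ) ^ n * (c j * N j) = 0 := by rw [← h3]; ring
    exact (mul_eq_zero.1 h6).resolve_left h5

section

variable {Pol : ∀ X : 𝒱.Obj, X.Cycles → Prop} (hS : IsPolarClass ops P h Pol)
include hS

/-- a family with a negative and a positive norm gives an isotropic class on a product -/
lemma exists_isotropic {n g : ℕ} {z : Unit ⊕ Unit → W.H X} {s t : ℚ} (hX : Pol X D)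
    (H : Fam W X D n (g + 1) z (Sum.elim (fun _ => s) (fun _ => t))) (hs : s < 0) (ht : 0 < t) :
    ∃ (Y : 𝒱.Obj) (E : Y.Cycles) (n' : ℕ), Pol Y E ∧ HasClass W Y E n' (g + 1) 0 := by
  obtain ⟨X1, D1, z1, hX1, H1⟩ := H.two hS hX
  obtain ⟨X2, D2, z2, hX2, H2⟩ := H1.two hS hX1
  obtain ⟨X3, D3, z3, hX3, H3⟩ := H2.two hS hX2
  refine ⟨X3, D3, n + 1 + 1 + 1, hX3, ?_⟩
  obtain ⟨a, ha⟩ : ∃ a : ℚ, a = ((g + 1 : ℕ) : ℚ) * ((g + 2 : ℕ) : ℚ) * P.V.degCycle h ^ 2 :=
    ⟨_, rfl⟩
  obtain ⟨b, hb⟩ : ∃ b : ℚ, b = ((g + 2 : ℕ) : ℚ) * ((g + 3 : ℕ) : ℚ) * P.V.degCycle h ^ 2 :=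
    ⟨_, rfl⟩
  have ha0 : a ≠ 0 := by
    rw [ha]
    have := hS.degP
    positivity
  have hb0 : b ≠ 0 := by
    rw [hb]
    have := hS.degP
    positivity
  simp only [← ha, ← hb] at H3
  have hsq : ∀ q : ℚ, 0 ≤ q → ∃ u0 u1 u2 u3 : ℚ,
      (a * u0) ^ 2 + (b * u1) ^ 2 + (b * u2) ^ 2 + (b * u3) ^ 2 = q := by
    intro q hq
    obtain ⟨u0, u1, u2, u3, hu⟩ := four_squares hq
    refine ⟨u0 / a, u1 / b, u2 / b, u3 / b, ?_⟩
    rw [mul_div_cancel₀ _ ha0, mul_div_cancel₀ _ hb0, mul_div_cancel₀ _ hb0,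
      mul_div_cancel₀ _ hb0, hu]
  obtain ⟨u0, u1, u2, u3, hu⟩ := hsq t ht.le
  obtain ⟨v0, v1, v2, v3, hv⟩ := hsq (-s) (neg_pos.2 hs).le
  refine H3.isotropic (hS.div _ _ hX3)
    (Sum.elim
      (Sum.elim
        (Sum.elim (Sum.elim (fun _ => u0) (fun _ => v0)) (fun _ => 0))
        (Sum.elim (fun _ => 0) (Sum.elim (fun _ => u1) (fun _ => v1))))
      (Sum.elim
        (Sum.elim (fun _ => 0) (Sum.elim (fun _ => u2) (fun _ => v2)))
        (Sum.elim (Sum.elim (fun _ => u3) (fun _ => v3)) (fun _ => 0)))) ?_ ?_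
  · simp only [Fintype.sum_sum_type, Sum.elim_inl, Sum.elim_inr, Finset.univ_unique,
      Finset.sum_singleton]
    linear_combination (a * s) * hu + (a * t) * hv
  · by_contra hcon
    push Not at hcon
    have h0 := hcon (Sum.inl (Sum.inl (Sum.inl (Sum.inl ()))))
    have h1 := hcon (Sum.inl (Sum.inr (Sum.inr (Sum.inl ()))))
    have h2 := hcon (Sum.inr (Sum.inl (Sum.inr (Sum.inl ()))))
    have h3 := hcon (Sum.inr (Sum.inr (Sum.inl (Sum.inl ()))))
    simp only [Sum.elim_inl, Sum.elim_inr, mul_eq_zero, ha0, hb0, hs.ne, or_false,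
      false_or, or_self] at h0 h1 h2 h3
    rw [h0, h1, h2, h3] at hu
    norm_num at hu
    exact ht.ne hu

/-- **Anisotropy implies positivity.** -/
theorem pos_of_aniso (hA : ∀ (X : 𝒱.Obj) (D : X.Cycles) (n g : ℕ), Pol X D →
    ¬ HasClass W X D n g 0) {n g : ℕ} {s : ℚ} (hX : Pol X D) (H : HasClass W X D n g s) :
    0 < s := by
  by_contra hcon
  have hs0 : s ≠ 0 := by
    rintro rfl
    exact hA X D n g hX H
  have hs : s < 0 := lt_of_le_of_ne (not_lt.1 hcon) hs0
  have hD := hS.div X D hX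
  obtain ⟨a, ha, -⟩ := H
  have hdeg : W.tr X (W.cl X D ^ X.dim * 1) =
      ((X.V.degCycle (divPow ops D X.dim X.V.fundCycle) : ℚ) : W.K) := by
    rw [← W.cl_fund, ← cl_divPow', W.tr_cl]
    have := divPow_mem (ops := ops) hD X.dim X.V.fundCycle_mem
    rwa [zero_add] at this
  rcases n with _ | m
  · -- codimension zero
    have hdim := ha.dim
    obtain ⟨y, hy, hya⟩ := ha.alg ()
    have h1 := alg_mem (ha.alg ())
    rw [mul_zero, W.gr_zero, Submodule.mem_span_singleton] at h1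
    obtain ⟨κ, hκ⟩ := h1
    have h2 : W.tr X (W.cl X D ^ g * a ()) =
        ((X.V.degCycle (divPow ops D g y) : ℚ) : W.K) := by
      rw [← hya, ← cl_divPow', W.tr_cl]
      have := divPow_mem (ops := ops) hD g hy
      rwa [show 0 + g = X.dim by omega] at this
    have hg : g = X.dim := by omega
    have h3 := ha.norm ()
    rw [← hκ] at h2 h3
    subst hg
    rw [mul_smul_comm, map_smul, hdeg, smul_eq_mul] at h2
    rw [smul_mul_smul_comm, mul_one, mul_smul_comm, map_smul, hdeg, smul_eq_mul, pow_zero,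
      one_mul] at h3
    have h4 := hS.deg X D hX
    generalize X.V.degCycle (divPow ops D X.dim X.V.fundCycle) = e at h2 h3 h4
    generalize X.V.degCycle (divPow ops D X.dim y) = f at h2
    have h5 : (((f * f : ℚ)) : W.K) = ((s * e : ℚ) : W.K) := by
      push_cast
      rw [← h2, ← h3]
      ring
    have h6 : f * f = s * e := by exact_mod_cast h5
    nlinarith [mul_self_nonneg f, mul_pos_of_neg_of_neg hs (neg_lt_zero.2 h4)]
  · -- positive codimension
    have hdim := ha.dim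
    have hb : Fam W X D 0 (g + 2 * (m + 1)) (fun _ : Unit => (1 : W.H X))
        (fun _ => X.V.degCycle (divPow ops D X.dim X.V.fundCycle)) := by
      have hg : g + 2 * (m + 1) = X.dim := by omega
      refine ⟨by omega, fun _ => alg_one, fun _ => ?_, ?_, fun _ => ?_⟩
      · have h1 := pow_mem' (cl_div (W := W) hD) (g + 2 * (m + 1) + 1)
        rw [W.gr_eq_bot X _ (by omega)] at h1
        rw [(Submodule.mem_bot _).1 h1, zero_mul]
        intro q b _
        rw [zero_mul, map_zero]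
      · intro i j hij
        exact absurd (Subsingleton.elim i j) hij
      · rw [hg, mul_one, hdeg, pow_zero, one_mul]
    obtain ⟨Y, E, n', g', z, s', t', hY, H, e1, e2⟩ := align hS m (n := 0) hX
      (by rwa [zero_add]) hb
    obtain ⟨Y', E', n'', hY', H'⟩ := exists_isotropic hS hY H (e1 hs) (e2 (hS.deg X D hX))
    exact hA _ _ _ _ hY' H'

omit hS in
lemma positiveAt_iff (hD : X.IsCyc 1 D) {n g : ℕ} (hd : 2 * n + g = X.dim) :
    PositiveAt ops X D n g ↔ ∀ s, HasClass W X D n g s → 0 < s := by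
  constructor
  · intro h1 s hs
    obtain ⟨z, hz, h0, rfl⟩ := (hasClass_iff hD hd).1 hs
    exact h1 z hz h0
  · intro h1 z hz h0
    exact h1 _ ((hasClass_iff hD hd).2 ⟨z, hz, h0, rfl⟩)

omit hS in
lemma anisotropicAt_iff (hD : X.IsCyc 1 D) {n g : ℕ} (hd : 2 * n + g = X.dim) :
    AnisotropicAt ops X D n g ↔ ¬ HasClass W X D n g 0 := by
  rw [hasClass_iff hD hd]
  constructor
  · rintro h1 ⟨z, hz, h0, h2⟩
    exact h1 z hz h0 h2
  · intro h1 z hz h0 h2
    exact h1 ⟨z, hz, h0, h2⟩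

include W in
/-- **The conjecture of Hodge type is anisotropy at one distance from the middle.** -/
theorem main (g : ℕ) (S : Set ℕ) (hinf : {N | N ∈ S ∧ N % 2 = g % 2}.Infinite) :
    List.TFAE [
      ∀ (X : 𝒱.Obj) (D : X.Cycles), Pol X D → HodgeNum ops X D,
      AtDistance Pol S g (PositiveAt ops),
      AtDistance Pol S g (AnisotropicAt ops)] := by
  have key : AtDistance Pol S g (AnisotropicAt ops) → ∀ (X : 𝒱.Obj) (D : X.Cycles) (n g' : ℕ),
      Pol X D → ¬ HasClass W X D n g' 0 := by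
    intro h1 X D n g' hX H
    have hdim : 2 * n + g' = X.dim := by
      obtain ⟨z, hz, -⟩ := H
      exact hz.dim
    obtain ⟨N, ⟨hN, hpar⟩, hlt⟩ := hinf.exists_gt (X.dim + g + g')
    obtain ⟨Y, E, n', s', hY, hd, H', -, e2⟩ := H.path hS (N - X.dim) (g' := g) hX (by omega)
      (by omega) (by omega)
    obtain rfl : s' = 0 := e2.2 rfl
    have hd' : 2 * n' + g = Y.dim := by
      obtain ⟨z, hz, -⟩ := H'
      exact hz.dim
    refine (anisotropicAt_iff (hS.div Y E hY) hd').1 (h1 Y E n' hY ?_ hd') H'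
    rw [hd, show X.dim + (N - X.dim) = N by omega]
    exact hN
  tfae_have 1 → 2 := by
    intro h1 X D n hX _ hd
    exact h1 X D hX n g hd
  tfae_have 2 → 3 := by
    intro h1 X D n hX hS' hd z hz h0
    exact (h1 X D n hX hS' hd z hz h0).ne'
  tfae_have 3 → 1 := by
    intro h1 X D hX n g' hd
    exact (positiveAt_iff (W := W) (hS.div X D hX) hd).2 fun s hs =>
      pos_of_aniso hS (key h1) hX hs
  tfae_finish

end

end Pool.Agent.X305.HA
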