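import Pool.Agent.X305.HA.Fam

/-!
# Anisotropy and positivity
-/

set_option autoImplicit false

open CategoryTheory AlgebraicGeometry Finset

universe u v

namespace Pool.Agent.X305.HA

open Pool.Agent.H914 VarClass Obj WeilCohomology Pool.Agent.TH720.LB

variable {k : Type u} [Field k] {𝒱 : VarClass k} {ops : CycleOps 𝒱}
  {W : WeilCohomology.{u, v} ops} {X P : 𝒱.Obj} {D : X.Cycles} {h : P.Cycles}

/-! ### translation to cohomology classes -/

lemma numZero_iff {p q : ℕ} (hpq : p + q = X.dim) {z : X.Cycles} (hz : X.IsCyc p z) :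
    NumZero ops X p z ↔ NZ W X (W.cl X z) := by
  constructor
  · rintro h0 r b ⟨w, hw, rfl⟩
    by_cases hr : p + r = X.dim
    · rw [← W.cl_mul, W.tr_cl (by rw [← hr]; exact ops.mul_mem hz hw), h0 r w hr hw, Rat.cast_zero]
    · exact W.tr_eq_zero (W.mul_mem (W.cl_mem hz) (W.cl_mem hw)) (by omega)
  · intro h0 r w hr hw
    have h1 := h0 r _ ⟨w, hw, rfl⟩
    rw [← W.cl_mul, W.tr_cl (by rw [← hr]; exact ops.mul_mem hz hw)] at h1
    exact_mod_cast h1

/-- numerical triviality of a cycle whose codimension may be larger than the dimension -/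
lemma numZero_iff' {p : ℕ} {z : X.Cycles} (hz : X.IsCyc p z) :
    NumZero ops X p z ↔ NZ W X (W.cl X z) := by
  by_cases hp : p ≤ X.dim
  · exact numZero_iff (q := X.dim - p) (by omega) hz
  · refine iff_of_true (fun q w hq _ => by omega) ?_
    have h1 := W.cl_mem hz
    rw [W.gr_eq_bot X _ (by omega)] at h1
    intro q b _
    rw [(Submodule.mem_bot _).1 h1, zero_mul, map_zero]

lemma cl_divPow' (i : ℕ) (z : X.Cycles) :
    W.cl X (divPow ops D i z) = W.cl X D ^ i * W.cl X z := by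
  rw [cl_divPow, LinearMap.pow_mulLeft, LinearMap.mulLeft_apply]

lemma prim_iff (hD : X.IsCyc 1 D) {n g : ℕ} {z : X.Cycles} (hz : X.IsCyc n z) :
    NumPrimitive ops X D n g z ↔ NZ W X (W.cl X D ^ (g + 1) * W.cl X z) := by
  rw [← cl_divPow', ← numZero_iff' (divPow_mem hD (g + 1) hz)]
  exact and_iff_right hz

lemma norm_eq (hD : X.IsCyc 1 D) {n g : ℕ} (hd : 2 * n + g = X.dim) {z : X.Cycles}
    (hz : X.IsCyc n z) : W.tr X (W.cl X D ^ g * (W.cl X z * W.cl X z)) =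
      (((-1) ^ n * hodgeNorm ops X D n g z : ℚ) : W.K) := by
  have h1 : W.cl X D ^ g * (W.cl X z * W.cl X z) =
      W.cl X (ops.mul z (divPow ops D g z)) := by
    rw [W.cl_mul, cl_divPow', ← mul_assoc, ← mul_assoc,
      comm_even (p := g) (pow_mem' (cl_div hD) g)]
  have h2 : (-1 : ℚ) ^ n * (-1) ^ n = 1 := by
    rw [← pow_add, ← two_mul, pow_mul]; simp
  rw [h1, W.tr_cl, hodgeNorm, ← mul_assoc, h2, one_mul]
  rw [← hd, show 2 * n + g = n + (n + g) by ring]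
  exact ops.mul_mem hz (divPow_mem hD g hz)

/-- a primitive class, not zero, of codimension `n` and gap `g` with the norm `s` -/
def HasClass (W : WeilCohomology.{u, v} ops) (X : 𝒱.Obj) (D : X.Cycles) (n g : ℕ) (s : ℚ) : Prop :=
  ∃ z : Unit → W.H X, Fam W X D n g z (fun _ => s) ∧ ¬ NZ W X (z ())

lemma hasClass_iff (hD : X.IsCyc 1 D) {n g : ℕ} (hd : 2 * n + g = X.dim) {s : ℚ} :
    HasClass W X D n g s ↔ ∃ z, NumPrimitive ops X D n g z ∧ ¬ NumZero ops X n z ∧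
      hodgeNorm ops X D n g z = s := by
  constructor
  · rintro ⟨z, hz, h0⟩
    obtain ⟨y, hy, hyz⟩ := hz.alg ()
    have h2 := hz.norm ()
    rw [← hyz, norm_eq hD hd hy] at h2
    refine ⟨y, (prim_iff hD hy).2 (by rw [hyz]; exact hz.prim ()), ?_, ?_⟩
    · rw [numZero_iff' hy, hyz]
      exact h0
    · have h3 : (-1 : ℚ) ^ n * hodgeNorm ops X D n g y = (-1) ^ n * s := by exact_mod_cast h2
      exact mul_left_cancel₀ (pow_ne_zero n (by norm_num)) h3
  · rintro ⟨z, hz, h0, rfl⟩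
    refine ⟨fun _ => W.cl X z, ⟨hd, fun _ => ⟨z, hz.1, rfl⟩, fun _ => (prim_iff hD hz.1).1 hz, ?_,
      fun _ => norm_eq hD hd hz.1⟩, ?_⟩
    · intro i j hij
      exact absurd (Subsingleton.elim i j) hij
    · rw [← numZero_iff' hz.1]
      exact h0

section

variable {Pol : ∀ X : 𝒱.Obj, X.Cycles → Prop} (hS : IsPolarClass ops P h Pol)
include hS

lemma deg_ne : (P.V.degCycle h : W.K) ≠ 0 := by exact_mod_cast hS.degP.ne'

lemma HasClass.up {n g : ℕ} {s : ℚ} (hX : Pol X D) (H : HasClass W X D n g s) :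
    ∃ s', HasClass W (X.prod P) (sumDiv ops D h) n (g + 1) s' ∧ (0 < s' ↔ 0 < s) ∧
      (s' = 0 ↔ s = 0) := by
  obtain ⟨z, hz, h0⟩ := H
  have hc : 0 < ((g + 1 : ℕ) : ℚ) * P.V.degCycle h :=
    mul_pos (by exact_mod_cast Nat.succ_pos g) hS.degP
  refine ⟨_, ⟨_, hz.up (hS.div X D hX) hS.divP hS.dimP, not_nz_up hS.divP hS.dimP (deg_ne hS) h0⟩,
    ?_, ?_⟩
  · exact mul_pos_iff_of_pos_left hc
  · rw [mul_eq_zero, or_iff_right hc.ne']

lemma HasClass.down {n g : ℕ} {s : ℚ} (hX : Pol X D) (H : HasClass W X D n (g + 1) s) :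
    ∃ s', HasClass W (X.prod P) (sumDiv ops D h) (n + 1) g s' ∧ (0 < s' ↔ 0 < s) ∧
      (s' = 0 ↔ s = 0) := by
  obtain ⟨z, hz, h0⟩ := H
  have hc : 0 < ((g + 2 : ℕ) : ℚ) * P.V.degCycle h :=
    mul_pos (by exact_mod_cast Nat.succ_pos _) hS.degP
  refine ⟨_, ⟨_, hz.down (hS.div X D hX) hS.divP hS.dimP,
    not_nz_down (hS.div X D hX) hS.divP hS.dimP (deg_ne hS) h0⟩, ?_, ?_⟩
  · exact mul_pos_iff_of_pos_left hc
  · rw [mul_eq_zero, or_iff_right hc.ne']

/-- moving a class to another gap in a larger dimension -/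
lemma HasClass.path (r : ℕ) : ∀ {X : 𝒱.Obj} {D : X.Cycles} {n g g' : ℕ} {s : ℚ}, Pol X D →
    g' ≤ g + r → g ≤ g' + r → (g + r) % 2 = g' % 2 → HasClass W X D n g s →
    ∃ (Y : 𝒱.Obj) (E : Y.Cycles) (n' : ℕ) (s' : ℚ), Pol Y E ∧ Y.dim = X.dim + r ∧
      HasClass W Y E n' g' s' ∧ (0 < s' ↔ 0 < s) ∧ (s' = 0 ↔ s = 0) := by
  induction r with
  | zero =>
    intro X D n g g' s hX h1 h2 _ H
    obtain rfl : g = g' := by omega
    exact ⟨X, D, n, s, hX, rfl, H, Iff.rfl, Iff.rfl⟩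
  | succ r ih =>
    intro X D n g g' s hX h1 h2 hp H
    have hdim : (X.prod P).dim = X.dim + 1 := by rw [dim_prod X P, hS.dimP]
    rcases Nat.lt_or_ge g' g with hlt | hge
    · obtain ⟨g, rfl⟩ : ∃ g₁, g = g₁ + 1 := ⟨g - 1, by omega⟩
      obtain ⟨s', hs', e1, e2⟩ := H.down hS hX
      obtain ⟨Y, E, n', s'', hY, hd, H', e3, e4⟩ :=
        ih (g' := g') (hS.prod X D hX) (by omega) (by omega) (by omega) hs'
      exact ⟨Y, E, n', s'', hY, by omega, H', e3.trans e1, e4.trans e2⟩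
    · obtain ⟨s', hs', e1, e2⟩ := H.up hS hX
      obtain ⟨Y, E, n', s'', hY, hd, H', e3, e4⟩ :=
        ih (g' := g') (hS.prod X D hX) (by omega) (by omega) (by omega) hs'
      exact ⟨Y, E, n', s'', hY, by omega, H', e3.trans e1, e4.trans e2⟩

/-- bringing two classes to the same gap -/
lemma align (m : ℕ) : ∀ {X : 𝒱.Obj} {D : X.Cycles} {n g : ℕ} {a b : Unit → W.H X} {s t : ℚ},
    Pol X D → Fam W X D (n + m + 1) g a (fun _ => s) → Fam W X D n (g + 2 * (m + 1)) b (fun _ => t) →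
    ∃ (Y : 𝒱.Obj) (E : Y.Cycles) (n' g' : ℕ) (z : Unit ⊕ Unit → W.H Y) (s' t' : ℚ), Pol Y E ∧
      Fam W Y E n' (g' + 1) z (Sum.elim (fun _ => s') (fun _ => t')) ∧ (s < 0 → s' < 0) ∧
      (0 < t → 0 < t') := by
  induction m with
  | zero =>
    intro X D n g a b s t hX Ha Hb
    have h1 := Ha.mix (hS.div X D hX) hS.divP hS.dimP Hb
    refine ⟨_, _, _, g, _, _, _, hS.prod X D hX, h1, fun hs => ?_, fun ht => ?_⟩
    · exact mul_neg_of_pos_of_neg (mul_pos (by exact_mod_cast Nat.succ_pos g) hS.degP) hs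
    · exact mul_pos (mul_pos (by exact_mod_cast Nat.succ_pos _) hS.degP) ht
  | succ m ih =>
    intro X D n g a b s t hX Ha Hb
    have h1 := Ha.up (hS.div X D hX) hS.divP hS.dimP
    have h2 := Fam.down (g := g + 2 * m + 3) (hS.div X D hX) hS.divP hS.dimP Hb
    obtain ⟨Y, E, n', g', z, s', t', hY, H, e1, e2⟩ := ih (n := n + 1) (g := g + 1)
      (hS.prod X D hX) (by
        rw [show n + 1 + m + 1 = n + (m + 1) + 1 by ring]
        exact h1) (by
        rw [show g + 1 + 2 * (m + 1) = g + 2 * m + 3 by ring]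
        exact h2)
    refine ⟨Y, E, n', g', z, s', t', hY, H, fun hs => e1 ?_, fun ht => e2 ?_⟩
    · exact mul_neg_of_pos_of_neg (mul_pos (by exact_mod_cast Nat.succ_pos g) hS.degP) hs
    · exact mul_pos (mul_pos (by exact_mod_cast Nat.succ_pos _) hS.degP) ht

end

end Pool.Agent.X305.HA
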